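import Pool.Agent.Helper3.HT.UniE
import Pool.Agent.Helper12.HT.BIN

namespace Pool.Agent.Results.MP_005f52_nt.DescentTimes

open Filter Topology

/-- Joint normal law of the numbers of Syracuse steps that a negative odd integer needs to come down from the level
`f 0 x = x` to the levels `f 1 x`, ..., `f r x` (`k i` is the first time in `[-f i x, f i x]`), in residue classes.
(1) On unions of disjoint sets that are invariant under the Syracuse map and its inverse (for `N < -Y`); for `r = 0`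
this is the density of the union in the class. (2) Together with the place of the first entry into `[-f r x, f r x]`:
the times, the place and the class are asymptotically independent, for arbitrary sets `E x` of places, and the law of
the place is the same (up to `o(1)`, uniformly) as on all negative odd integers. -/
theorem result : (∀ (Y : ℕ) (S : ℕ → Set ℤ),
    (∀ i : ℕ, ∀ N : ℤ, N < -(Y : ℤ) → Odd N → (N ∈ S i ↔ (3 * N + 1) / 2 ^ padicValInt 2 (3 * N + 1) ∈ S i)) →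
    (∀ i j : ℕ, i ≠ j → Disjoint (S i) (S j)) →
    ∃ d : ℕ → ℝ, Summable d ∧ ∀ I : Set ℕ, ∀ m : ℕ, 1 ≤ m → ∀ b : ℤ, Odd b → ∀ (r : ℕ) (f : ℕ → ℝ → ℝ) (s : ℕ → ℝ),
      (∀ x : ℝ, f 0 x = x) → Tendsto (f r) atTop atTop →
      (∀ i : ℕ, i < r → Tendsto (fun x => f i x / f (i + 1) x) atTop atTop) →
      Tendsto (fun x : ℝ => (Nat.card {N : ℤ // N < 0 ∧ (2 * m : ℤ) ∣ N - b ∧ -x ≤ (N : ℝ) ∧ (∃ i ∈ I, N ∈ S i) ∧
        ∃ k : ℕ → ℕ, k 0 = 0 ∧ ∀ i : ℕ, i < r →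
          IsLeast {t : ℕ | |(((fun n : ℤ => (3 * n + 1) / 2 ^ padicValInt 2 (3 * n + 1))^[t] N : ℤ) : ℝ)| ≤ f (i + 1) x} (k (i + 1)) ∧
          (((k (i + 1) : ℝ) - k i) * Real.log (4 / 3) - Real.log (f i x / f (i + 1) x)) * Real.sqrt (Real.log (4 / 3)) ≤
            s i * (Real.log 2 * Real.sqrt (2 * Real.log (f i x / f (i + 1) x)))} : ℝ) / x) atTop
        (𝓝 ((∑' i : I, d i) / m * ∏ i ∈ Finset.range r, (ProbabilityTheory.gaussianReal 0 1).real (Set.Iic (s i))))) ∧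
    ∀ (r : ℕ) (f : ℕ → ℝ → ℝ), 1 ≤ r → (∀ x : ℝ, f 0 x = x) → Tendsto (f r) atTop atTop →
      (∀ i : ℕ, i < r → Tendsto (fun x => f i x / f (i + 1) x) atTop atTop) → ∀ E : ℝ → Set ℤ,
      ∃ δ : ℝ → ℝ, (∀ x : ℝ, Tendsto (fun z : ℝ => (Nat.card {N : ℤ // N < 0 ∧ Odd N ∧ -z ≤ (N : ℝ) ∧
        ∃ k : ℕ, IsLeast {t : ℕ | |(((fun n : ℤ => (3 * n + 1) / 2 ^ padicValInt 2 (3 * n + 1))^[t] N : ℤ) : ℝ)| ≤ f r x} k ∧
          (fun n : ℤ => (3 * n + 1) / 2 ^ padicValInt 2 (3 * n + 1))^[k] N ∈ E x} : ℝ) / z) atTop (𝓝 (δ x))) ∧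
      ∀ m : ℕ, 1 ≤ m → ∀ b : ℤ, Odd b → ∀ s : ℕ → ℝ,
        Tendsto (fun x : ℝ => (Nat.card {N : ℤ // N < 0 ∧ (2 * m : ℤ) ∣ N - b ∧ -x ≤ (N : ℝ) ∧
          ∃ k : ℕ → ℕ, k 0 = 0 ∧ (∀ i : ℕ, i < r →
            IsLeast {t : ℕ | |(((fun n : ℤ => (3 * n + 1) / 2 ^ padicValInt 2 (3 * n + 1))^[t] N : ℤ) : ℝ)| ≤ f (i + 1) x} (k (i + 1)) ∧
            (((k (i + 1) : ℝ) - k i) * Real.log (4 / 3) - Real.log (f i x / f (i + 1) x)) * Real.sqrt (Real.log (4 / 3)) ≤
              s i * (Real.log 2 * Real.sqrt (2 * Real.log (f i x / f (i + 1) x)))) ∧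
          (fun n : ℤ => (3 * n + 1) / 2 ^ padicValInt 2 (3 * n + 1))^[k r] N ∈ E x} : ℝ) / x -
          δ x / m * ∏ i ∈ Finset.range r, (ProbabilityTheory.gaussianReal 0 1).real (Set.Iic (s i))) atTop (𝓝 0) := by
  refine ⟨fun Y S hinv hdis => ?_, fun r f hr hf0 hfr hfd E => ?_⟩
  · obtain ⟨d, hd, H⟩ := Pool.Agent.Helper3.HT.jntU Pool.Agent.Helper3.HT.bin Y S hinv hdis
    refine ⟨d, hd, fun I m hm b hb r f s hf0 hfr hfd => ?_⟩
    refine (H I m hm b hb r f s hf0 hfr hfd).congr (fun x => ?_)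
    unfold Pool.Agent.Helper32.HT.cR
    rw [← Nat.card_coe_set_eq]
    rfl
  · obtain ⟨r', rfl⟩ : ∃ r', r = r' + 1 := ⟨r - 1, by omega⟩
    obtain ⟨δ, h1, h2⟩ := Pool.Agent.Helper3.HT.jntB Pool.Agent.Helper3.HT.bin r' f hf0 hfr hfd E
    refine ⟨δ, fun x => ?_, fun m hm b hb s => ?_⟩
    · refine (h1 x).congr (fun z => ?_)
      unfold Pool.Agent.Helper32.HT.cR
      rw [← Nat.card_coe_set_eq]
      congr 2
      apply Nat.card_congr
      apply Equiv.subtypeEquivRight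
      intro N
      exact and_congr_right (fun _ => and_congr (Pool.Agent.Helper3.HT.odd_div N) Iff.rfl)
    · refine (h2 m hm b hb s).congr (fun x => ?_)
      unfold Pool.Agent.Helper32.HT.cR
      rw [← Nat.card_coe_set_eq]
      congr 3
      apply Nat.card_congr
      apply Equiv.subtypeEquivRight
      intro N
      exact and_congr_right (fun _ => and_congr_right (fun _ => and_congr_right (fun _ => Pool.Agent.Helper3.HT.LP_iff)))

end Pool.Agent.Results.MP_005f52_nt.DescentTimes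

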