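import Pool.Agent.Helper3.HT.ClsC
import Pool.Agent.Helper12.HT.BIN
import Pool.Agent.Helper18.HT.BASE
import Pool.Agent.Helper32.HT.FINC
import Pool.Agent.Helper3.HT.Flex

namespace Pool.Agent.Results.MP_005f52_nt.HittingTimes

open Filter Topology

/-- Normal law for the number of Syracuse steps that a negative odd integer needs to reach the targets `B x`, which lie
in `[-f x, f x]` and exhaust `A`; here `A` is a set of negative odd integers that all but finitely many of its elements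
never leave in one step (for instance a finite set, or a set closed under the Syracuse map). -/
theorem result (A : Set ℤ) (hA : ∀ a ∈ A, a < 0 ∧ Odd a)
    (hfin : {a ∈ A | (3 * a + 1) / 2 ^ padicValInt 2 (3 * a + 1) ∉ A}.Finite) :
    ∃ d : ℝ, ∀ m : ℕ, 1 ≤ m → ∀ b : ℤ, Odd b →
      Tendsto (fun x : ℝ => (Nat.card {N : ℤ // N < 0 ∧ (2 * m : ℤ) ∣ N - b ∧ -x ≤ (N : ℝ) ∧
        ∃ k : ℕ, (fun n : ℤ => (3 * n + 1) / 2 ^ padicValInt 2 (3 * n + 1))^[k] N ∈ A} : ℝ) / x) atTop (𝓝 (d / m)) ∧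
      ∀ (B : ℝ → Set ℤ) (f : ℝ → ℝ), (∀ a ∈ A, ∀ᶠ x in atTop, a ∈ B x) → (∀ x : ℝ, ∀ n ∈ B x, |(n : ℝ)| ≤ f x) →
        Tendsto (fun x => Real.log (f x) / Real.sqrt (Real.log x)) atTop (𝓝 0) →
        ∀ s : ℝ, Tendsto (fun x : ℝ => (Nat.card {N : ℤ // N < 0 ∧ (2 * m : ℤ) ∣ N - b ∧ -x ≤ (N : ℝ) ∧
          (∃ k : ℕ, (fun n : ℤ => (3 * n + 1) / 2 ^ padicValInt 2 (3 * n + 1))^[k] N ∈ A) ∧
          ∃ k : ℕ, (fun n : ℤ => (3 * n + 1) / 2 ^ padicValInt 2 (3 * n + 1))^[k] N ∈ B x ∧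
            ((k : ℝ) * Real.log (4 / 3) - Real.log x) * Real.sqrt (Real.log (4 / 3)) ≤
              s * (Real.log 2 * Real.sqrt (2 * Real.log x))} : ℝ) / x) atTop
          (𝓝 (d / m * (ProbabilityTheory.gaussianReal 0 1).real (Set.Iic s))) :=
  Pool.Agent.Helper3.HT.flex Pool.Agent.Helper3.HT.base
    (Pool.Agent.Helper3.HT.fins (Pool.Agent.Helper32.HT.finc (Pool.Agent.Helper3.HT.cls Pool.Agent.Helper3.HT.bin
      (Pool.Agent.Helper3.HT.walk Pool.Agent.Helper3.HT.base)))) A hA hfin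

end Pool.Agent.Results.MP_005f52_nt.HittingTimes
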