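import Pool.Agent.Helper3.PD.Final

namespace Pool.Agent.Results.MP_005f52_nt.LinearBasins

/-- There is an absolute constant `c > 0` such that for every negative odd `a` prime to `3` and every `x ≥ |a|` at
least `c * x / |a|` of the negative odd integers `N ≥ -x` have a Syracuse orbit through `a`. -/
theorem result : ∃ c : ℝ, 0 < c ∧ ∀ a : ℤ, a < 0 → Odd a → ¬ (3 : ℤ) ∣ a → ∀ x : ℝ, |(a : ℝ)| ≤ x →
    c * x / |(a : ℝ)| ≤
      (Nat.card {N : ℤ // N < 0 ∧ Odd N ∧ -x ≤ (N : ℝ) ∧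
        ∃ k : ℕ, (fun n : ℤ => (3 * n + 1) / 2 ^ padicValInt 2 (3 * n + 1))^[k] N = a} : ℝ) := by
  obtain ⟨c, hc, H⟩ := Pool.Agent.Helper3.PD.neg_syr Pool.Agent.Helper3.PD.fino
  exact ⟨c, hc, fun a ha ho h3 x hx => H a ha ho h3 x hx⟩

end Pool.Agent.Results.MP_005f52_nt.LinearBasins
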