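import Pool.Agent.Helper1.PW.Pow

namespace Pool.Agent.Results.MP_005f52_nt.PowerSaving

/-- For every real `θ < 1/22` there is a constant `C` such that for all `x > 0` and `Y ≥ 1` all but at most
`C * x * Y^(-θ)` of the negative odd integers `N ≥ -x` have a Syracuse orbit that reaches a value of absolute value
at most `Y` within the first `1000 * log x` steps. -/
theorem result (θ : ℝ) (hθ : θ < 1 / 22) : ∃ C : ℝ, 0 < C ∧ ∀ x Y : ℝ, 0 < x → 1 ≤ Y →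
    (Nat.card {N : ℤ // N < 0 ∧ Odd N ∧ -x ≤ (N : ℝ) ∧ ∀ k : ℕ, (k : ℝ) ≤ 1000 * Real.log x →
      Y < |(((fun n : ℤ => (3 * n + 1) / 2 ^ padicValInt 2 (3 * n + 1))^[k] N : ℤ) : ℝ)|} : ℝ) ≤
      C * x * Y ^ (-θ) := by
  obtain ⟨C, hC, H⟩ := Pool.Agent.Helper1.PW.pow_syr hθ
  refine ⟨C, hC, fun x Y hx hY => ?_⟩
  refine H Y hY x hx {N : ℤ | N < 0 ∧ Odd N ∧ -x ≤ (N : ℝ) ∧ ∀ k : ℕ, (k : ℝ) ≤ 1000 * Real.log x →
      Y < |(((fun n : ℤ => (3 * n + 1) / 2 ^ padicValInt 2 (3 * n + 1))^[k] N : ℤ) : ℝ)|} ?_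
  rintro N ⟨h1, h2, h3, h4⟩
  refine ⟨h2, ?_, h4⟩
  have h5 : (N : ℝ) < 0 := by exact_mod_cast h1
  rw [abs_of_neg h5]
  linarith

end Pool.Agent.Results.MP_005f52_nt.PowerSaving
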